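import Mathlib

/-!
Isoperimetry on the discrete cube: a one-sided inequality of Talagrand, and its consequence for
independent sets of density close to one half.
-/

namespace Pool.Agent.Helper17.SumsetHalf

open Finset

variable {m : ℕ}

/-- flip one coordinate -/
def flip (y : Fin m → Bool) (i : Fin m) : Fin m → Bool := Function.update y i (!y i)

/-- the parity sign -/
noncomputable def sg (y : Fin m → Bool) : ℝ := ∏ i, if y i then -1 else 1

theorem flip_same (y : Fin m → Bool) (i : Fin m) : flip y i i = !y i := by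
  simp [flip]

theorem flip_ne (y : Fin m → Bool) {i j : Fin m} (h : j ≠ i) : flip y i j = y j := by
  simp [flip, h]

theorem flip_flip (y : Fin m → Bool) (i : Fin m) : flip (flip y i) i = y := by
  funext j
  by_cases h : j = i
  · subst h; rw [flip_same, flip_same, Bool.not_not]
  · rw [flip_ne _ h, flip_ne _ h]

theorem flip_comm (y : Fin m → Bool) (i j : Fin m) : flip (flip y i) j = flip (flip y j) i := by
  funext l
  by_cases hi : l = i <;> by_cases hj : l = j
  · subst hi; subst hj; rfl
  · subst hi; rw [flip_ne _ hj, flip_same, flip_same, flip_ne _ hj]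
  · subst hj; rw [flip_same, flip_ne _ hi, flip_ne _ hi, flip_same]
  · rw [flip_ne _ hj, flip_ne _ hi, flip_ne _ hi, flip_ne _ hj]

/-- flipping a coordinate, as a permutation -/
def flipE (i : Fin m) : Equiv.Perm (Fin m → Bool) :=
  ⟨fun y => flip y i, fun y => flip y i, fun y => flip_flip y i, fun y => flip_flip y i⟩

theorem sum_flip {M : Type*} [AddCommMonoid M] (g : (Fin m → Bool) → M) (i : Fin m) :
    ∑ y, g (flip y i) = ∑ y, g y :=
  Equiv.sum_comp (flipE i) g

theorem sg_flip (y : Fin m → Bool) (i : Fin m) : sg (flip y i) = - sg y := by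
  unfold sg
  rw [← mul_prod_erase univ _ (mem_univ i), ← mul_prod_erase univ _ (mem_univ i), flip_same,
    ← neg_mul]
  congr 1
  · cases y i <;> simp
  · refine prod_congr rfl fun j hj => ?_
    rw [flip_ne _ (ne_of_mem_erase hj)]

theorem sg_cases (y : Fin m → Bool) : sg y = 1 ∨ sg y = -1 := by
  unfold sg
  induction (univ : Finset (Fin m)) using Finset.induction_on with
  | empty => simp
  | insert i S hi ih =>
    rw [prod_insert hi]
    rcases ih with ih | ih <;> rw [ih] <;> cases y i <;> simp

theorem sum_sg (hm : 1 ≤ m) : ∑ y : Fin m → Bool, sg y = 0 := by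
  have h := sum_flip (fun y : Fin m → Bool => sg y) ⟨0, by omega⟩
  simp only [sg_flip, sum_neg_distrib] at h
  linarith

/-- number of neighbours in `P` -/
noncomputable def nb (P : Finset (Fin m → Bool)) (y : Fin m → Bool) : ℝ :=
  ∑ i, if flip y i ∈ P then 1 else 0

theorem nb_nonneg (P : Finset (Fin m → Bool)) (y : Fin m → Bool) : 0 ≤ nb P y :=
  sum_nonneg fun _ _ => by split_ifs <;> norm_num

theorem nb_le (P : Finset (Fin m → Bool)) (y : Fin m → Bool) : nb P y ≤ m := by
  unfold nb
  calc _ ≤ ∑ i : Fin m, (1 : ℝ) := sum_le_sum fun _ _ => by split_ifs <;> norm_num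
    _ = m := by simp

/-- the outer boundary function -/
noncomputable def bd (P : Finset (Fin m → Bool)) (y : Fin m → Bool) : ℝ :=
  if y ∈ P then 0 else √(nb P y)

theorem bd_nonneg (P : Finset (Fin m → Bool)) (y : Fin m → Bool) : 0 ≤ bd P y := by
  unfold bd; split_ifs
  · exact le_rfl
  · exact Real.sqrt_nonneg _

theorem sqrt_sum_le {ι : Type*} (s : Finset ι) (u v : ι → ℝ) :
    √((∑ y ∈ s, u y) ^ 2 + (∑ y ∈ s, v y) ^ 2) ≤ ∑ y ∈ s, √(u y ^ 2 + v y ^ 2) := by
  have h := norm_sum_le s (fun y => (⟨u y, v y⟩ : ℂ))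
  have h1 : ∀ a b : ℝ, ‖(⟨a, b⟩ : ℂ)‖ = √(a ^ 2 + b ^ 2) := by
    intro a b
    rw [Complex.norm_def, Complex.normSq_mk, sq, sq]
  have h2 : (∑ y ∈ s, (⟨u y, v y⟩ : ℂ)) = ⟨∑ y ∈ s, u y, ∑ y ∈ s, v y⟩ := by
    apply Complex.ext
    · rw [Complex.re_sum]
    · rw [Complex.im_sum]
  rw [h2, h1] at h
  refine h.trans (le_of_eq ?_)
  exact sum_congr rfl fun y _ => h1 _ _

theorem two_point {a b : ℝ} (ha : 0 ≤ a) (hab : a ≤ b) (hb : b ≤ 1) :
    2 * ((a + b) / 2 * (1 - (a + b) / 2)) ≤ √((a * (1 - a)) ^ 2 + (b - a) ^ 2) + b * (1 - b) := by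
  have h1 : a * (1 - a) + (b - a) ^ 2 / 2 ≤ √((a * (1 - a)) ^ 2 + (b - a) ^ 2) := by
    apply Real.le_sqrt_of_sq_le
    have h2 : a * (1 - a) ≤ 1 / 4 := by nlinarith [sq_nonneg (a - 1 / 2)]
    have h3 : (b - a) ^ 2 ≤ 1 := by nlinarith
    have h4 : 0 ≤ (b - a) ^ 2 := sq_nonneg _
    nlinarith
  nlinarith

/-- the slices of a set -/
def slice (P : Finset (Fin (m + 1) → Bool)) (b : Bool) : Finset (Fin m → Bool) :=
  univ.filter fun y => (Fin.cons b y : Fin (m + 1) → Bool) ∈ P

theorem mem_slice (P : Finset (Fin (m + 1) → Bool)) (b : Bool) (y : Fin m → Bool) :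
    y ∈ slice P b ↔ (Fin.cons b y : Fin (m + 1) → Bool) ∈ P := by
  simp [slice]

theorem sum_cons {M : Type*} [AddCommMonoid M] (g : (Fin (m + 1) → Bool) → M) :
    ∑ y, g y = ∑ y : Fin m → Bool, g (Fin.cons false y) + ∑ y : Fin m → Bool, g (Fin.cons true y) := by
  rw [← (Fin.consEquiv fun _ : Fin (m + 1) => Bool).sum_comp g, Fintype.sum_prod_type,
    Fintype.sum_bool, add_comm]
  rfl

theorem flip_cons_zero (b : Bool) (y : Fin m → Bool) :
    flip (Fin.cons b y : Fin (m + 1) → Bool) 0 = Fin.cons (!b) y := by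
  unfold flip
  rw [Fin.cons_zero, Fin.update_cons_zero]

theorem flip_cons_succ (b : Bool) (y : Fin m → Bool) (i : Fin m) :
    flip (Fin.cons b y : Fin (m + 1) → Bool) i.succ = Fin.cons b (flip y i) := by
  unfold flip
  rw [Fin.cons_succ, Fin.cons_update]

theorem nb_cons (P : Finset (Fin (m + 1) → Bool)) (b : Bool) (y : Fin m → Bool) :
    nb P (Fin.cons b y) = (if y ∈ slice P (!b) then 1 else 0) + nb (slice P b) y := by
  unfold nb
  rw [Fin.sum_univ_succ]
  simp only [flip_cons_zero, flip_cons_succ, mem_slice]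

theorem bd_cons_ge (P : Finset (Fin (m + 1) → Bool)) (b : Bool) (y : Fin m → Bool) :
    bd (slice P b) y ≤ bd P (Fin.cons b y) := by
  unfold bd
  rw [nb_cons]
  by_cases h : (Fin.cons b y : Fin (m + 1) → Bool) ∈ P
  · rw [if_pos ((mem_slice P b y).2 h), if_pos h]
  · rw [if_neg (fun h' => h ((mem_slice P b y).1 h')), if_neg h]
    apply Real.sqrt_le_sqrt
    split_ifs <;> linarith

theorem bd_cons_eq (P : Finset (Fin (m + 1) → Bool)) (b : Bool) (y : Fin m → Bool) :
    bd P (Fin.cons b y) = √((bd (slice P b) y) ^ 2 +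
      (if y ∈ slice P (!b) \ slice P b then 1 else 0) ^ 2) := by
  unfold bd
  rw [nb_cons]
  by_cases h1 : (Fin.cons b y : Fin (m + 1) → Bool) ∈ P
  · have h1' := (mem_slice P b y).2 h1
    have h3 : y ∉ slice P (!b) \ slice P b := fun h => (mem_sdiff.1 h).2 h1'
    rw [if_pos h1, if_pos h1', if_neg h3]
    simp
  · have h1' : y ∉ slice P b := fun h' => h1 ((mem_slice P b y).1 h')
    rw [if_neg h1, if_neg h1', Real.sq_sqrt (nb_nonneg _ _)]
    by_cases h2 : y ∈ slice P (!b)
    · rw [if_pos h2, if_pos (mem_sdiff.2 ⟨h2, h1'⟩)]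
      congr 1
      ring
    · rw [if_neg h2, if_neg (fun h => h2 (mem_sdiff.1 h).1)]
      congr 1
      ring

theorem card_cons (P : Finset (Fin (m + 1) → Bool)) :
    P.card = (slice P false).card + (slice P true).card := by
  have h := sum_cons (fun y : Fin (m + 1) → Bool => if y ∈ P then 1 else 0)
  simp only [← mem_slice] at h
  rw [← card_filter, ← card_filter, ← card_filter] at h
  simpa using h

/-- density -/
noncomputable def dens (P : Finset (Fin m → Bool)) : ℝ := P.card / 2 ^ m

theorem dens_nonneg (P : Finset (Fin m → Bool)) : 0 ≤ dens P := by unfold dens; positivity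

theorem dens_le (P : Finset (Fin m → Bool)) : dens P ≤ 1 := by
  unfold dens
  rw [div_le_one (by positivity)]
  have := card_le_univ P
  rw [Fintype.card_fun, Fintype.card_bool, Fintype.card_fin] at this
  exact_mod_cast this

theorem step_aux (P : Finset (Fin (m + 1) → Bool)) (b : Bool)
    (h0 : dens (slice P b) * (1 - dens (slice P b)) ≤ (∑ y, bd (slice P b) y) / 2 ^ m)
    (h1 : dens (slice P (!b)) * (1 - dens (slice P (!b))) ≤ (∑ y, bd (slice P (!b)) y) / 2 ^ m)
    (hle : dens (slice P b) ≤ dens (slice P (!b))) :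
    2 * ((dens (slice P b) + dens (slice P (!b))) / 2 *
      (1 - (dens (slice P b) + dens (slice P (!b))) / 2)) ≤
      ((∑ y, bd P (Fin.cons b y)) + ∑ y, bd P (Fin.cons (!b) y)) / 2 ^ m := by
  have hN : (0 : ℝ) < 2 ^ m := by positivity
  have h2 := two_point (dens_nonneg (slice P b)) hle (dens_le _)
  refine h2.trans ?_
  rw [add_div]
  apply add_le_add
  · simp only [bd_cons_eq]
    rw [le_div_iff₀ hN]
    refine le_trans ?_ (sqrt_sum_le univ _ _)
    rw [← Real.sqrt_sq hN.le, ← Real.sqrt_mul (by positivity)]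
    apply Real.sqrt_le_sqrt
    rw [add_mul, ← mul_pow, ← mul_pow]
    apply add_le_add
    · apply pow_le_pow_left₀
      · have := dens_nonneg (slice P b)
        have := dens_le (slice P b)
        exact mul_nonneg (mul_nonneg (by assumption) (by linarith)) hN.le
      · rwa [le_div_iff₀ hN] at h0
    · apply pow_le_pow_left₀
      · exact mul_nonneg (by linarith) hN.le
      · rw [← Finset.sum_filter, Finset.filter_univ_mem, sum_const, nsmul_eq_mul, mul_one,
          sub_mul]
        unfold dens
        rw [div_mul_cancel₀ _ hN.ne', div_mul_cancel₀ _ hN.ne']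
        have := le_card_sdiff (slice P b) (slice P (!b))
        have h3 : (slice P (!b)).card ≤ (slice P (!b) \ slice P b).card + (slice P b).card := by
          omega
        have h4 : ((slice P (!b)).card : ℝ) ≤
            (slice P (!b) \ slice P b).card + (slice P b).card := by exact_mod_cast h3
        linarith
  · refine h1.trans ?_
    apply div_le_div_of_nonneg_right _ hN.le
    exact sum_le_sum fun y _ => bd_cons_ge P (!b) y

/-- One-sided form of Talagrand's isoperimetric inequality. -/
theorem talagrand (m : ℕ) (P : Finset (Fin m → Bool)) :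
    dens P * (1 - dens P) ≤ (∑ y, bd P y) / 2 ^ m := by
  induction m with
  | zero =>
    have h0 : 0 ≤ (∑ y, bd P y) / 2 ^ 0 :=
      div_nonneg (sum_nonneg fun y _ => bd_nonneg P y) (by norm_num)
    have h1 : dens P = 0 ∨ dens P = 1 := by
      unfold dens
      have := card_le_univ P
      rw [Fintype.card_fun, Fintype.card_bool, Fintype.card_fin, pow_zero] at this
      rw [pow_zero, div_one]
      interval_cases h : P.card
      · left; simp
      · right; simp
    rcases h1 with h1 | h1 <;> rw [h1] <;> simpa using h0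
  | succ m ih =>
    have hN : (0 : ℝ) < 2 ^ m := by positivity
    have hd : dens P = (dens (slice P false) + dens (slice P true)) / 2 := by
      unfold dens
      rw [card_cons P, pow_succ]
      push_cast
      field_simp
    have hs : (∑ y, bd P y) / 2 ^ (m + 1) =
        (((∑ y, bd P (Fin.cons false y)) + ∑ y, bd P (Fin.cons true y)) / 2 ^ m) / 2 := by
      rw [sum_cons, pow_succ, div_div]
    rw [hs, hd]
    rcases le_total (dens (slice P false)) (dens (slice P true)) with h | h
    · have := step_aux P false (ih _) (ih _) h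
      simp only [Bool.not_false] at this
      linarith
    · have := step_aux P true (ih _) (ih _) h
      simp only [Bool.not_true] at this
      rw [add_comm (dens (slice P true)), add_comm (∑ y, bd P (Fin.cons true y))] at this
      linarith

/-- For an independent set of the cube of density `a` and signed density `e`,
`a² - e² ≤ (4√m + 3)(1/2 - a)`. -/
theorem cube_lemma (hm : 1 ≤ m) (Z : Finset (Fin m → Bool))
    (hind : ∀ x ∈ Z, ∀ i, flip x i ∉ Z) :
    (dens Z) ^ 2 - ((∑ x ∈ Z, sg x) / 2 ^ m) ^ 2 ≤ (4 * √m + 3) * (1 / 2 - dens Z) := by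
  classical
  have hN : (0 : ℝ) < 2 ^ m := by positivity
  have hmR : (0 : ℝ) < m := by exact_mod_cast hm
  let f : (Fin m → Bool) → ℝ := fun x => if x ∈ Z then 1 else 0
  let b : (Fin m → Bool) → ℝ := fun x => ∑ i, (1 - f (flip x i))
  have hf01 : ∀ x, f x = 0 ∨ f x = 1 := by
    intro x; by_cases h : x ∈ Z <;> simp [f, h]
  have hsumf : ∑ x, f x = Z.card := by
    simp only [f]
    rw [← sum_filter, filter_univ_mem]
    simp
  have hcardN : (∑ _x : Fin m → Bool, (1 : ℝ)) = 2 ^ m := by
    rw [sum_const, card_univ, Fintype.card_fun, Fintype.card_bool, Fintype.card_fin]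
    simp
  have hff : ∀ x i, f x * f (flip x i) = 0 := by
    intro x i
    by_cases h : x ∈ Z
    · simp [f, hind x h i]
    · simp [f, h]
  -- double counting
  have hdc : ∑ x, (1 - f x) * b x = m * (2 ^ m - 2 * Z.card) := by
    simp only [b, mul_sum]
    rw [sum_comm]
    have : ∀ i : Fin m, ∑ x, (1 - f x) * (1 - f (flip x i)) = 2 ^ m - 2 * Z.card := by
      intro i
      have h1 : ∀ x, (1 - f x) * (1 - f (flip x i)) = 1 - f x - f (flip x i) := by
        intro x
        have := hff x i
        linarith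
      simp only [h1, sum_sub_distrib, hcardN, hsumf]
      rw [sum_flip (fun x => f x) i, hsumf]
      ring
    rw [sum_congr rfl fun i _ => this i, sum_const, card_univ, Fintype.card_fin, nsmul_eq_mul]
  have hb0 : ∀ x, 0 ≤ b x := fun x => sum_nonneg fun i _ => by
    rcases hf01 (flip x i) with h | h <;> rw [h] <;> norm_num
  -- adjacent vertices outside
  have hadj : ∀ x i, x ∉ Z → flip x i ∉ Z → (m : ℝ) ≤ b x + b (flip x i) := by
    intro x i _ _
    simp only [b, ← sum_add_distrib]
    calc (m : ℝ) = ∑ _j : Fin m, (1 : ℝ) := by simp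
      _ ≤ _ := sum_le_sum fun j _ => by
        have h1 := hff (flip x j) i
        rw [flip_comm] at h1
        rcases hf01 (flip x j) with h | h
        · rcases hf01 (flip (flip x i) j) with h' | h' <;> rw [h, h'] <;> norm_num
        · rw [h, one_mul] at h1
          rw [h, h1]; norm_num
  let Bp : Finset (Fin m → Bool) := univ.filter fun x => x ∉ Z ∧ (m : ℝ) ≤ 2 * b x
  let P : Finset (Fin m → Bool) := univ.filter fun x =>
    (sg x = 1 ∧ x ∈ Z) ∨ (sg x = -1 ∧ x ∉ Z ∧ 2 * b x < m)
  have hBp : (Bp.card : ℝ) ≤ 2 * (2 ^ m - 2 * Z.card) := by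
    have h1 : (Bp.card : ℝ) * (m / 2) ≤ m * (2 ^ m - 2 * Z.card) := by
      rw [← hdc]
      calc (Bp.card : ℝ) * (m / 2) = ∑ x ∈ Bp, (m / 2 : ℝ) := by rw [sum_const, nsmul_eq_mul]
        _ ≤ ∑ x ∈ Bp, (1 - f x) * b x := by
          refine sum_le_sum fun x hx => ?_
          rw [mem_filter] at hx
          have : f x = 0 := by simp [f, hx.2.1]
          rw [this]
          linarith [hx.2.2]
        _ ≤ ∑ x, (1 - f x) * b x := by
          apply sum_le_sum_of_subset_of_nonneg (subset_univ _)
          intro x _ _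
          refine mul_nonneg ?_ (hb0 x)
          rcases hf01 x with h | h <;> rw [h] <;> norm_num
    have h2 : (m : ℝ) * (Bp.card : ℝ) ≤ m * (2 * (2 ^ m - 2 * Z.card)) := by linarith
    exact le_of_mul_le_mul_left h2 hmR
  have hBp0 : (0 : ℝ) ≤ Bp.card := by positivity
  -- the boundary of P is inside Bp
  have hbd : ∀ y i, y ∉ P → flip y i ∈ P → y ∈ Bp := by
    intro y i hy hyi
    simp only [P, mem_filter, mem_univ, true_and] at hy hyi
    push Not at hy
    simp only [Bp, mem_filter, mem_univ, true_and]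
    rw [sg_flip] at hyi
    rcases hyi with ⟨h1, h2⟩ | ⟨h1, h2, h3⟩
    · have h4 : y ∉ Z := by
        have := hind _ h2 i
        rwa [flip_flip] at this
      exact ⟨h4, hy.2 (by linarith) h4⟩
    · have h4 : y ∉ Z := fun h => (hy.1 (by linarith)) h
      refine ⟨h4, ?_⟩
      have := hadj y i h4 h2
      linarith
  have hbd2 : ∀ y, bd P y ≤ √m * (if y ∈ Bp then 1 else 0) := by
    intro y
    unfold bd
    split_ifs with h1 h2 h2
    · positivity
    · simp
    · rw [mul_one]
      exact Real.sqrt_le_sqrt (nb_le P y)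
    · have : nb P y = 0 := by
        unfold nb
        refine sum_eq_zero fun i _ => ?_
        rw [if_neg fun h => h2 (hbd y i h1 h)]
      rw [this]
      simp
  have htal := talagrand m P
  have h5 : dens P * (1 - dens P) ≤ √m * (4 * (1 / 2 - dens Z)) := by
    refine htal.trans ?_
    rw [div_le_iff₀ hN]
    calc ∑ y, bd P y ≤ ∑ y, √m * (if y ∈ Bp then 1 else 0) := sum_le_sum fun y _ => hbd2 y
      _ = √m * Bp.card := by
        rw [← mul_sum, ← sum_filter, filter_univ_mem]
        simp
      _ ≤ √m * (2 * (2 ^ m - 2 * Z.card)) := mul_le_mul_of_nonneg_left hBp (Real.sqrt_nonneg _)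
      _ = _ := by
        unfold dens
        field_simp
        ring
  -- the density of P
  have hPf : ∀ x, (if x ∈ P then (1 : ℝ) else 0) ≤
      f x * ((1 + sg x) / 2) + (1 - f x) * ((1 - sg x) / 2) ∧
      f x * ((1 + sg x) / 2) + (1 - f x) * ((1 - sg x) / 2) ≤
        (if x ∈ P then (1 : ℝ) else 0) + (if x ∈ Bp then 1 else 0) := by
    intro x
    by_cases hx : x ∈ Z
    · have hfx : f x = 1 := by simp [f, hx]
      have hxB : x ∉ Bp := by simp [Bp, hx]
      rcases sg_cases x with h | h
      · have hxP : x ∈ P := by simp [P, h, hx]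
        rw [hfx, h, if_pos hxP, if_neg hxB]; norm_num
      · have hxP : x ∉ P := by
          intro hxP
          simp only [P, mem_filter, mem_univ, true_and] at hxP
          rcases hxP with h1 | h1
          · rw [h] at h1
            norm_num at h1
          · exact h1.2.1 hx
        rw [hfx, h, if_neg hxP, if_neg hxB]; norm_num
    · have hfx : f x = 0 := by simp [f, hx]
      rcases sg_cases x with h | h
      · have hxP : x ∉ P := by
          intro hxP
          simp only [P, mem_filter, mem_univ, true_and] at hxP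
          rcases hxP with h1 | h1
          · exact hx h1.2
          · rw [h] at h1
            norm_num at h1
        rw [hfx, h, if_neg hxP]
        constructor
        · norm_num
        · split_ifs <;> norm_num
      · rw [hfx, h]
        constructor
        · split_ifs <;> norm_num
        · by_cases h1 : (m : ℝ) ≤ 2 * b x
          · have hxB : x ∈ Bp := by simp only [Bp, mem_filter, mem_univ, true_and]; exact ⟨hx, h1⟩
            rw [if_pos hxB]
            split_ifs <;> norm_num
          · have hxP : x ∈ P := by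
              simp only [P, mem_filter, mem_univ, true_and]
              exact Or.inr ⟨h, hx, by linarith⟩
            rw [if_pos hxP]
            split_ifs <;> norm_num
  have hsumP : ∑ x, (if x ∈ P then (1 : ℝ) else 0) = P.card := by
    rw [← sum_filter, filter_univ_mem]; simp
  have hsumB : ∑ x, (if x ∈ Bp then (1 : ℝ) else 0) = Bp.card := by
    rw [← sum_filter, filter_univ_mem]; simp
  have hmid : ∑ x, (f x * ((1 + sg x) / 2) + (1 - f x) * ((1 - sg x) / 2)) =
      2 ^ m / 2 + ∑ x ∈ Z, sg x := by
    have h1 : ∀ x, f x * ((1 + sg x) / 2) + (1 - f x) * ((1 - sg x) / 2) =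
        (1 / 2 : ℝ) * 1 - (1 / 2) * sg x + f x * sg x := by intro x; ring
    simp only [h1, sum_add_distrib, sum_sub_distrib, ← mul_sum, hcardN, sum_sg hm]
    have h2 : ∑ x, f x * sg x = ∑ x ∈ Z, sg x := by
      simp only [f, ite_mul, one_mul, zero_mul]
      rw [← sum_filter, filter_univ_mem]
    rw [h2]
    ring
  have h6 : (P.card : ℝ) ≤ 2 ^ m / 2 + ∑ x ∈ Z, sg x := by
    rw [← hsumP, ← hmid]
    exact sum_le_sum fun x _ => (hPf x).1
  have h7 : 2 ^ m / 2 + ∑ x ∈ Z, sg x ≤ (P.card : ℝ) + Bp.card := by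
    rw [← hsumP, ← hsumB, ← hmid, ← sum_add_distrib]
    exact sum_le_sum fun x _ => (hPf x).2
  set e : ℝ := (∑ x ∈ Z, sg x) / 2 ^ m with he
  have h8 : dens P ≤ 1 / 2 + e := by
    unfold dens
    rw [he, div_le_iff₀ hN, add_mul, div_mul_cancel₀ _ hN.ne']
    linarith
  have h9 : 1 / 2 + e ≤ dens P + 4 * (1 / 2 - dens Z) := by
    have : 1 / 2 + e ≤ dens P + (2 * (2 ^ m - 2 * Z.card)) / 2 ^ m := by
      unfold dens
      rw [he, ← add_div, le_div_iff₀ hN, add_mul, div_mul_cancel₀ _ hN.ne']
      linarith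
    refine this.trans (le_of_eq ?_)
    unfold dens
    field_simp
    ring
  have h10 : 0 ≤ 1 / 2 - dens Z := by
    have : 0 ≤ 2 * ((2 : ℝ) ^ m - 2 * Z.card) := hBp0.trans hBp
    unfold dens
    rw [sub_nonneg, div_le_iff₀ hN]
    linarith
  -- signs
  have h11 : |e| ≤ dens Z := by
    rw [he, abs_div, abs_of_pos hN]
    unfold dens
    apply div_le_div_of_nonneg_right _ hN.le
    refine (abs_sum_le_sum_abs _ _).trans ?_
    calc ∑ x ∈ Z, |sg x| = ∑ x ∈ Z, (1 : ℝ) := by
          refine sum_congr rfl fun x _ => ?_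
          rcases sg_cases x with h | h <;> rw [h] <;> norm_num
      _ = Z.card := by simp
      _ ≤ _ := le_rfl
  have h12 := abs_le.1 h11
  have h13 := dens_nonneg P
  have h14 := dens_le P
  have h15 : dens Z ^ 2 - e ^ 2 ≤ (dens P + 3 * (1 / 2 - dens Z)) * (1 - dens P) := by
    have h16 : dens Z ^ 2 - e ^ 2 = (dens Z + e) * (dens Z - e) := by ring
    rw [h16]
    calc (dens Z + e) * (dens Z - e) ≤ (dens Z + e) * (1 - dens P) := by
          apply mul_le_mul_of_nonneg_left _ (by linarith)
          linarith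
      _ ≤ _ := by
          apply mul_le_mul_of_nonneg_right _ (by linarith)
          linarith
  nlinarith [mul_nonneg h10 h13]

end Pool.Agent.Helper17.SumsetHalf
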