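import Mathlib
import Pool.Agent.Helper17.SumsetHalf.Cube

/-!
Fourier analysis on the vector space `F₂ⁿ`: the difference operators contract.
-/

namespace Pool.Agent.Helper17.SumsetHalf

open Finset

variable {n : ℕ}

/-- a character -/
noncomputable def chi (r x : Fin n → ZMod 2) : ℝ := if r ⬝ᵥ x = 0 then 1 else -1

theorem zmod2_cases (a : ZMod 2) : a = 0 ∨ a = 1 := by revert a; decide

theorem chi_add (r x y : Fin n → ZMod 2) : chi r (x + y) = chi r x * chi r y := by
  unfold chi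
  rw [dotProduct_add]
  rcases zmod2_cases (r ⬝ᵥ x) with h1 | h1 <;> rcases zmod2_cases (r ⬝ᵥ y) with h2 | h2 <;>
    rw [h1, h2]
  · simp
  · simp
  · simp
  · rw [if_pos (by decide), if_neg (by decide)]; norm_num

theorem chi_add_left (r s x : Fin n → ZMod 2) : chi (r + s) x = chi r x * chi s x := by
  unfold chi
  rw [add_dotProduct]
  rcases zmod2_cases (r ⬝ᵥ x) with h1 | h1 <;> rcases zmod2_cases (s ⬝ᵥ x) with h2 | h2 <;>
    rw [h1, h2]
  · simp
  · simp
  · simp
  · rw [if_pos (by decide), if_neg (by decide)]; norm_num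

theorem sum_chi (x : Fin n → ZMod 2) : ∑ r, chi r x = if x = 0 then 2 ^ n else 0 := by
  split_ifs with h
  · subst h
    simp only [chi, dotProduct_zero, if_true, sum_const, card_univ, Fintype.card_fun,
      ZMod.card, Fintype.card_fin, nsmul_eq_mul, mul_one]
    push_cast
    rfl
  · obtain ⟨i, hi⟩ : ∃ i, x i ≠ 0 := by
      by_contra hcon
      push Not at hcon
      exact h (funext hcon)
    let e : Fin n → ZMod 2 := fun j => if j = i then 1 else 0
    have h1 : ∑ r, chi (r + e) x = ∑ r, chi r x :=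
      Equiv.sum_comp (Equiv.addRight e) fun r => chi r x
    have h2 : chi e x = -1 := by
      have h3 : e ⬝ᵥ x = x i := by
        simp only [dotProduct, e, ite_mul, one_mul, zero_mul, sum_ite_eq', mem_univ, if_true]
      unfold chi
      rw [h3, if_neg hi]
    simp only [chi_add_left, h2, mul_neg, mul_one, sum_neg_distrib] at h1
    linarith

theorem add_self_two (x : Fin n → ZMod 2) : x + x = 0 := by
  funext i
  exact CharTwo.add_self_eq_zero (x i)

theorem parseval (g : (Fin n → ZMod 2) → ℝ) (d : Fin n → ZMod 2) :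
    ∑ r, (∑ x, g x * chi r x) ^ 2 * chi r d = 2 ^ n * ∑ x, g x * g (x + d) := by
  have h1 : ∀ r, (∑ x, g x * chi r x) ^ 2 * chi r d =
      ∑ x, ∑ y, g x * g y * chi r (x + y + d) := by
    intro r
    rw [sq, sum_mul_sum, sum_mul]
    refine sum_congr rfl fun x _ => ?_
    rw [sum_mul]
    refine sum_congr rfl fun y _ => ?_
    rw [chi_add, chi_add]
    ring
  simp only [h1]
  rw [sum_comm, mul_sum]
  refine sum_congr rfl fun x _ => ?_
  rw [sum_comm]
  have h2 : ∀ y, ∑ r, g x * g y * chi r (x + y + d) =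
      if y = x + d then g x * g y * 2 ^ n else 0 := by
    intro y
    rw [← mul_sum, sum_chi, mul_ite, mul_zero]
    have : x + y + d = 0 ↔ y = x + d := by
      constructor
      · intro h
        have h3 := congrArg (fun z => x + d + z) h
        simp only [add_zero] at h3
        rw [← h3, show x + d + (x + y + d) = y + (x + x) + (d + d) by abel, add_self_two,
          add_self_two, add_zero, add_zero]
      · rintro rfl
        rw [show x + (x + d) + d = (x + x) + (d + d) by abel, add_self_two, add_self_two,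
          add_zero]
    simp only [this]
  simp only [h2, sum_ite_eq', mem_univ, if_true]
  ring

theorem sum_shift (g : (Fin n → ZMod 2) → ℝ) (d : Fin n → ZMod 2) :
    ∑ x, g (x + d) = ∑ x, g x :=
  Equiv.sum_comp (Equiv.addRight d) g

/-- One of the difference operators contracts. -/
theorem contract (E : Finset (Fin n → ZMod 2)) (hE : E.Nonempty) {lam : ℝ}
    (hq : ∀ r : Fin n → ZMod 2, lam * E.card ≤ ((E.filter fun d => r ⬝ᵥ d = 0).card : ℝ))
    (g : (Fin n → ZMod 2) → ℝ) :
    ∃ d ∈ E, ∑ x, ((g x - g (x + d)) / 2) ^ 2 ≤ (1 - lam) * ∑ x, g x ^ 2 := by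
  have hN : (0 : ℝ) < 2 ^ n := by positivity
  apply exists_le_of_sum_le hE
  rw [sum_const, nsmul_eq_mul]
  have h1 : ∀ d, ∑ x, ((g x - g (x + d)) / 2) ^ 2 =
      (1 / 2) * ∑ x, g x ^ 2 - (1 / 2) * ∑ x, g x * g (x + d) := by
    intro d
    have h2 : ∀ x, ((g x - g (x + d)) / 2) ^ 2 =
        (1 / 4) * g x ^ 2 + (1 / 4) * g (x + d) ^ 2 - (1 / 2) * (g x * g (x + d)) := by
      intro x; ring
    simp only [h2, sum_sub_distrib, sum_add_distrib, ← mul_sum]
    rw [sum_shift (fun x => g x ^ 2) d]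
    ring
  have h3 : ∀ r, (2 * lam - 1) * E.card ≤ ∑ d ∈ E, chi r d := by
    intro r
    have h4 : ∑ d ∈ E, chi r d = 2 * ((E.filter fun d => r ⬝ᵥ d = 0).card : ℝ) - E.card := by
      have h5 : ∀ d, chi r d = 2 * (if r ⬝ᵥ d = 0 then 1 else 0) - 1 := by
        intro d
        unfold chi
        split_ifs <;> norm_num
      simp only [h5, sum_sub_distrib, ← mul_sum]
      rw [← sum_filter]
      simp
    rw [h4]
    linarith [hq r]
  have h6 : (2 * lam - 1) * E.card * (2 ^ n * ∑ x, g x ^ 2) ≤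
      2 ^ n * ∑ d ∈ E, ∑ x, g x * g (x + d) := by
    have h7 := parseval g 0
    have h8 : ∀ r : Fin n → ZMod 2, chi r 0 = 1 := by intro r; simp [chi]
    simp only [h8, mul_one, add_zero, ← sq] at h7
    rw [← h7, mul_sum, mul_sum]
    have h9 : ∀ d, 2 ^ n * ∑ x, g x * g (x + d) =
        ∑ r, (∑ x, g x * chi r x) ^ 2 * chi r d := fun d => (parseval g d).symm
    simp only [h9]
    rw [sum_comm]
    refine sum_le_sum fun r _ => ?_
    rw [← mul_sum, mul_comm]
    exact mul_le_mul_of_nonneg_left (h3 r) (sq_nonneg _)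
  have h10 : (2 * lam - 1) * E.card * (∑ x, g x ^ 2) ≤ ∑ d ∈ E, ∑ x, g x * g (x + d) := by
    have : 2 ^ n * ((2 * lam - 1) * E.card * (∑ x, g x ^ 2)) ≤
        2 ^ n * ∑ d ∈ E, ∑ x, g x * g (x + d) := by linarith
    exact le_of_mul_le_mul_left this hN
  simp only [h1, sum_sub_distrib, sum_const, nsmul_eq_mul, ← mul_sum]
  linarith

/-- the point of the cube through `x` -/
def pt {m : ℕ} (τ : Fin m → Fin n → ZMod 2) (x : Fin n → ZMod 2) (I : Fin m → Bool) :
    Fin n → ZMod 2 := x + ∑ i, if I i then τ i else 0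

/-- the signed average over a cube -/
noncomputable def sgn_avg {m : ℕ} (f : (Fin n → ZMod 2) → ℝ) (τ : Fin m → Fin n → ZMod 2)
    (x : Fin n → ZMod 2) : ℝ := (∑ I, sg I * f (pt τ x I)) / 2 ^ m

theorem sgn_avg_cons {m : ℕ} (f : (Fin n → ZMod 2) → ℝ) (d : Fin n → ZMod 2)
    (τ : Fin m → Fin n → ZMod 2) (x : Fin n → ZMod 2) :
    sgn_avg f (Fin.cons d τ : Fin (m + 1) → Fin n → ZMod 2) x =
      (sgn_avg f τ x - sgn_avg f τ (x + d)) / 2 := by
  unfold sgn_avg
  rw [sum_cons]
  have h1 : ∀ (b : Bool) (I : Fin m → Bool),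
      sg (Fin.cons b I : Fin (m + 1) → Bool) = (if b then -1 else 1) * sg I := by
    intro b I
    unfold sg
    rw [Fin.prod_univ_succ]
    simp only [Fin.cons_zero, Fin.cons_succ]
  have h2 : ∀ (I : Fin m → Bool),
      pt (Fin.cons d τ : Fin (m + 1) → Fin n → ZMod 2) x (Fin.cons false I) = pt τ x I := by
    intro I
    unfold pt
    rw [Fin.sum_univ_succ]
    simp only [Fin.cons_zero, Fin.cons_succ]
    simp
  have h3 : ∀ (I : Fin m → Bool),
      pt (Fin.cons d τ : Fin (m + 1) → Fin n → ZMod 2) x (Fin.cons true I) = pt τ (x + d) I := by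
    intro I
    unfold pt
    rw [Fin.sum_univ_succ]
    simp only [Fin.cons_zero, Fin.cons_succ]
    simp [add_assoc]
  simp only [h1, h2, h3]
  simp only [Bool.false_eq_true, if_false, if_true, one_mul, neg_mul, sum_neg_distrib]
  rw [pow_succ]
  ring

/-- Iterating the contraction. -/
theorem exists_tuple (E : Finset (Fin n → ZMod 2)) (hE : E.Nonempty) {lam : ℝ} (hl : lam ≤ 1)
    (hq : ∀ r : Fin n → ZMod 2, lam * E.card ≤ ((E.filter fun d => r ⬝ᵥ d = 0).card : ℝ))
    (f : (Fin n → ZMod 2) → ℝ) (m : ℕ) :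
    ∃ τ : Fin m → Fin n → ZMod 2, (∀ i, τ i ∈ E) ∧
      ∑ x, (sgn_avg f τ x) ^ 2 ≤ (1 - lam) ^ m * ∑ x, f x ^ 2 := by
  induction m with
  | zero =>
    refine ⟨Fin.elim0, fun i => i.elim0, ?_⟩
    simp [sgn_avg, pt, sg]
  | succ m ih =>
    obtain ⟨τ, hτ, hs⟩ := ih
    obtain ⟨d, hd, hd'⟩ := contract E hE hq (sgn_avg f τ)
    refine ⟨Fin.cons d τ, fun i => ?_, ?_⟩
    · refine Fin.cases ?_ (fun j => ?_) i
      · rw [Fin.cons_zero]; exact hd
      · rw [Fin.cons_succ]; exact hτ j
    · simp only [sgn_avg_cons]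
      refine hd'.trans ?_
      rw [pow_succ', mul_assoc]
      exact mul_le_mul_of_nonneg_left hs (by linarith)

theorem pt_flip {m : ℕ} (τ : Fin m → Fin n → ZMod 2) (x : Fin n → ZMod 2) (I : Fin m → Bool)
    (i : Fin m) : pt τ x (flip I i) = pt τ x I + τ i := by
  unfold pt
  rw [← add_sum_erase univ _ (mem_univ i),
    ← add_sum_erase (a := i) univ (fun j => if I j then τ j else 0) (mem_univ i)]
  rw [flip_same]
  have h1 : ∑ j ∈ univ.erase i, (if flip I i j then τ j else 0) =
      ∑ j ∈ univ.erase i, (if I j then τ j else 0) :=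
    sum_congr rfl fun j hj => by rw [flip_ne _ (ne_of_mem_erase hj)]
  rw [h1]
  cases I i
  · simp only [Bool.not_false, if_true, Bool.false_eq_true, if_false]
    abel
  · simp only [Bool.not_true, Bool.false_eq_true, if_false, if_true, zero_add]
    rw [show x + (τ i + ∑ j ∈ univ.erase i, if I j = true then τ j else 0) + τ i =
      x + (∑ j ∈ univ.erase i, if I j = true then τ j else 0) + (τ i + τ i) by abel,
      add_self_two, add_zero]

/-- The inequality for a set whose sumset misses `E`. -/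
theorem key (A E : Finset (Fin n → ZMod 2)) (hE : E.Nonempty)
    (hAE : ∀ a ∈ A, ∀ d ∈ E, a + d ∉ A) {lam : ℝ} (hl : lam ≤ 1)
    (hq : ∀ r : Fin n → ZMod 2, lam * E.card ≤ ((E.filter fun d => r ⬝ᵥ d = 0).card : ℝ))
    {m : ℕ} (hm : 1 ≤ m) :
    ((A.card : ℝ) / 2 ^ n) ^ 2 ≤ (1 - lam) ^ m * (A.card / 2 ^ n) +
      (4 * √m + 3) * (1 / 2 - A.card / 2 ^ n) := by
  classical
  have hN : (0 : ℝ) < 2 ^ n := by positivity
  have hM : (0 : ℝ) < 2 ^ m := by positivity
  let f : (Fin n → ZMod 2) → ℝ := fun x => if x ∈ A then 1 else 0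
  have hcardN : (∑ _x : Fin n → ZMod 2, (1 : ℝ)) = 2 ^ n := by
    rw [sum_const, card_univ, Fintype.card_fun, ZMod.card, Fintype.card_fin]
    simp
  have hf : ∑ x, f x = A.card := by
    simp only [f]
    rw [← sum_filter, filter_univ_mem]
    simp
  have hf2 : ∑ x, f x ^ 2 = A.card := by
    rw [← hf]
    refine sum_congr rfl fun x _ => ?_
    simp only [f]
    split_ifs <;> norm_num
  obtain ⟨τ, hτ, hs⟩ := exists_tuple E hE hl hq f m
  rw [hf2] at hs
  let Z : (Fin n → ZMod 2) → Finset (Fin m → Bool) := fun x => univ.filter fun I => pt τ x I ∈ A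
  have hZ : ∀ x, dens (Z x) = (∑ I, f (pt τ x I)) / 2 ^ m := by
    intro x
    unfold dens
    congr 1
    simp only [f, Z]
    rw [← sum_filter]
    simp
  have hZe : ∀ x, (∑ I ∈ Z x, sg I) / 2 ^ m = sgn_avg f τ x := by
    intro x
    unfold sgn_avg
    congr 1
    simp only [f, Z, mul_ite, mul_one, mul_zero]
    rw [← sum_filter]
  have hind : ∀ x, ∀ I ∈ Z x, ∀ i, flip I i ∉ Z x := by
    intro x I hI i
    simp only [Z, mem_filter, mem_univ, true_and] at hI ⊢
    rw [pt_flip]
    exact hAE _ hI _ (hτ i)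
  have hcube := fun x => cube_lemma hm (Z x) (hind x)
  have hsumd : ∑ x, dens (Z x) = A.card := by
    simp only [hZ]
    rw [← sum_div, sum_comm, div_eq_iff hM.ne']
    have : ∀ I : Fin m → Bool, ∑ x, f (pt τ x I) = A.card := by
      intro I
      unfold pt
      rw [sum_shift f, hf]
    rw [sum_congr rfl fun I _ => this I, sum_const, card_univ, Fintype.card_fun,
      Fintype.card_bool, Fintype.card_fin, nsmul_eq_mul]
    push_cast
    ring
  have hcs : (A.card : ℝ) ^ 2 ≤ 2 ^ n * ∑ x, dens (Z x) ^ 2 := by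
    have := sq_sum_le_card_mul_sum_sq (s := (univ : Finset (Fin n → ZMod 2)))
      (f := fun x => dens (Z x))
    rw [hsumd, card_univ, Fintype.card_fun, ZMod.card, Fintype.card_fin] at this
    exact_mod_cast this
  have hsum : ∑ x, dens (Z x) ^ 2 - ∑ x, (sgn_avg f τ x) ^ 2 ≤
      (4 * √m + 3) * (2 ^ n / 2 - A.card) := by
    rw [← sum_sub_distrib]
    calc ∑ x, (dens (Z x) ^ 2 - (sgn_avg f τ x) ^ 2)
        ≤ ∑ x, (4 * √m + 3) * (1 / 2 - dens (Z x)) := sum_le_sum fun x _ => by
          rw [← hZe x]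
          exact hcube x
      _ = _ := by
          rw [← mul_sum, sum_sub_distrib, hsumd]
          congr 2
          rw [show (∑ _x : Fin n → ZMod 2, (1 / 2 : ℝ)) = (1 / 2) * ∑ _x : Fin n → ZMod 2, (1 : ℝ) by
            rw [mul_sum]; simp, hcardN]
          ring
  have h1 : (A.card : ℝ) ^ 2 ≤ 2 ^ n * ((1 - lam) ^ m * A.card +
      (4 * √m + 3) * (2 ^ n / 2 - A.card)) := by
    refine hcs.trans (mul_le_mul_of_nonneg_left ?_ hN.le)
    linarith
  have h2 : ((A.card : ℝ) / 2 ^ n) ^ 2 = (A.card : ℝ) ^ 2 / (2 ^ n * 2 ^ n) := by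
    rw [div_pow, sq (2 ^ n : ℝ)]
  rw [h2, div_le_iff₀ (by positivity)]
  refine h1.trans (le_of_eq ?_)
  field_simp

end Pool.Agent.Helper17.SumsetHalf
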