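import Mathlib

/-!
Covering a set of vectors over the field with two elements by few functionals: a compactness
lemma obtained from polynomials of low degree, and a greedy covering lemma.
-/

namespace Pool.Agent.Helper17.SumsetHalf

open Finset

variable {n : ℕ}

/-- `D` is covered by `k` functionals: every element of `D` is sent to `1` by one of them. -/
def Cov (D : Finset (Fin n → ZMod 2)) (k : ℕ) : Prop :=
  ∃ S : Finset (Fin n → ZMod 2), S.card ≤ k ∧ ∀ d ∈ D, ∃ r ∈ S, r ⬝ᵥ d ≠ 0

/-- a square-free monomial -/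
def mono (T : Finset (Fin n)) : (Fin n → ZMod 2) → ZMod 2 := fun x => ∏ i ∈ T, x i

/-- the sets with at most `k` elements -/
def lowT (n k : ℕ) : Finset (Finset (Fin n)) := univ.filter fun T => T.card ≤ k

theorem card_lowT (n k : ℕ) : (lowT n k).card = ∑ j ∈ range (k + 1), n.choose j := by
  rw [card_eq_sum_card_fiberwise (f := Finset.card) (t := range (k + 1))]
  · refine sum_congr rfl fun j hj => ?_
    have : (lowT n k).filter (fun T => T.card = j) = powersetCard j univ := by
      ext T
      simp only [lowT, mem_filter, mem_univ, true_and, mem_powersetCard, subset_univ]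
      constructor
      · exact fun h => h.2
      · exact fun h => ⟨by rw [h]; have := mem_range.1 hj; omega, h⟩
    rw [this, card_powersetCard, card_univ, Fintype.card_fin]
  · intro T hT
    simp only [lowT, coe_filter, mem_univ, true_and, Set.mem_ofPred_eq] at hT
    simp only [coe_range, Set.mem_Iio]
    omega

/-- the functions given by polynomials of degree at most `k` -/
noncomputable def PolyLE (n k : ℕ) : Submodule (ZMod 2) ((Fin n → ZMod 2) → ZMod 2) :=
  Submodule.span (ZMod 2) (((lowT n k).image mono : Finset _) : Set ((Fin n → ZMod 2) → ZMod 2))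

theorem mono_mem {k : ℕ} {T : Finset (Fin n)} (h : T.card ≤ k) : mono T ∈ PolyLE n k := by
  apply Submodule.subset_span
  simp only [coe_image, Set.mem_image, mem_coe, lowT, mem_filter, mem_univ, true_and]
  exact ⟨T, h, rfl⟩

theorem polyLE_mono {k l : ℕ} (h : k ≤ l) : PolyLE n k ≤ PolyLE n l := by
  apply Submodule.span_mono
  intro f hf
  simp only [coe_image, Set.mem_image, mem_coe, lowT, mem_filter, mem_univ, true_and] at hf ⊢
  obtain ⟨T, hT, rfl⟩ := hf
  exact ⟨T, hT.trans h, rfl⟩

theorem sq_two (a : ZMod 2) : a * a = a := by revert a; decide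

theorem var_mul_mono (i : Fin n) (T : Finset (Fin n)) (x : Fin n → ZMod 2) :
    x i * mono T x = mono (insert i T) x := by
  unfold mono
  by_cases h : i ∈ T
  · rw [insert_eq_of_mem h, ← mul_prod_erase T x h, ← mul_assoc, sq_two]
  · rw [prod_insert h]

theorem affine_mul_mem {k : ℕ} (r : Fin n → ZMod 2) {F : (Fin n → ZMod 2) → ZMod 2}
    (hF : F ∈ PolyLE n k) : (fun x => (1 + r ⬝ᵥ x) * F x) ∈ PolyLE n (k + 1) := by
  unfold PolyLE at hF
  induction hF using Submodule.span_induction with
  | mem F hF =>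
    simp only [coe_image, Set.mem_image, mem_coe, lowT, mem_filter, mem_univ, true_and] at hF
    obtain ⟨T, hT, rfl⟩ := hF
    have : (fun x => (1 + r ⬝ᵥ x) * mono T x) = mono T + ∑ i, r i • mono (insert i T) := by
      funext x
      simp only [Pi.add_apply, Finset.sum_apply, Pi.smul_apply, smul_eq_mul, add_mul, one_mul]
      congr 1
      rw [dotProduct, sum_mul]
      refine sum_congr rfl fun i _ => ?_
      rw [mul_assoc, var_mul_mono]
    rw [this]
    refine Submodule.add_mem _ (mono_mem (by omega)) (Submodule.sum_mem _ fun i _ => ?_)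
    refine Submodule.smul_mem _ _ (mono_mem ?_)
    exact (card_insert_le i T).trans (by omega)
  | zero =>
    have : (fun x => (1 + r ⬝ᵥ x) * (0 : (Fin n → ZMod 2) → ZMod 2) x) = 0 := by
      funext x; simp
    rw [this]
    exact Submodule.zero_mem _
  | add F G _ _ hF hG =>
    have : (fun x => (1 + r ⬝ᵥ x) * (F + G) x) =
        (fun x => (1 + r ⬝ᵥ x) * F x) + (fun x => (1 + r ⬝ᵥ x) * G x) := by
      funext x; simp only [Pi.add_apply]; ring
    rw [this]
    exact Submodule.add_mem _ hF hG
  | smul c F _ hF =>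
    have : (fun x => (1 + r ⬝ᵥ x) * (c • F) x) = c • (fun x => (1 + r ⬝ᵥ x) * F x) := by
      funext x; simp only [Pi.smul_apply, smul_eq_mul]; ring
    rw [this]
    exact Submodule.smul_mem _ _ hF

theorem prod_mem (S : Finset (Fin n → ZMod 2)) :
    (fun x => ∏ r ∈ S, (1 + r ⬝ᵥ x)) ∈ PolyLE n S.card := by
  classical
  induction S using Finset.induction_on with
  | empty =>
    have : (fun x : Fin n → ZMod 2 => ∏ r ∈ (∅ : Finset (Fin n → ZMod 2)), (1 + r ⬝ᵥ x)) =
        mono ∅ := by
      funext x; simp [mono]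
    rw [this]
    exact mono_mem (by simp)
  | insert r S hr ih =>
    have : (fun x => ∏ r ∈ insert r S, (1 + r ⬝ᵥ x)) =
        (fun x => (1 + r ⬝ᵥ x) * (fun x => ∏ r ∈ S, (1 + r ⬝ᵥ x)) x) := by
      funext x; rw [prod_insert hr]
    rw [this, card_insert_of_notMem hr]
    exact affine_mul_mem r ih

theorem finrank_polyLE (n k : ℕ) :
    Module.finrank (ZMod 2) (PolyLE n k) ≤ ∑ j ∈ range (k + 1), n.choose j := by
  rw [← card_lowT]
  exact (finrank_span_finset_le_card _).trans card_image_le

/-- Compactness: a set that is not covered by `k` functionals has a subset with the same property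
and with at most `∑_{j ≤ k} C(n, j)` elements. -/
theorem compact (D : Finset (Fin n → ZMod 2)) (k : ℕ) (h : ¬ Cov D k) :
    ∃ D' ⊆ D, ¬ Cov D' k ∧ D'.card ≤ ∑ j ∈ range (k + 1), n.choose j := by
  classical
  obtain ⟨D', hD', hmin⟩ := exists_min_image (D.powerset.filter fun E => ¬ Cov E k) Finset.card
    ⟨D, by simp [h]⟩
  rw [mem_filter, mem_powerset] at hD'
  refine ⟨D', hD'.1, hD'.2, ?_⟩
  have hcov : ∀ d : D', ∃ S : Finset (Fin n → ZMod 2), S.card ≤ k ∧
      (∀ e ∈ D', e ≠ d → ∃ r ∈ S, r ⬝ᵥ e ≠ 0) ∧ ∀ r ∈ S, r ⬝ᵥ (d : Fin n → ZMod 2) = 0 := by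
    intro d
    by_contra hcon
    have hnc : ¬ Cov (D'.erase d) k := by
      rintro ⟨S, hS, hS'⟩
      apply hcon
      refine ⟨S, hS, fun e he hed => hS' e (mem_erase.2 ⟨hed, he⟩), fun r hr => ?_⟩
      by_contra hr0
      apply hD'.2
      refine ⟨S, hS, fun e he => ?_⟩
      by_cases hed : e = d
      · exact ⟨r, hr, by rw [hed]; exact hr0⟩
      · exact hS' e (mem_erase.2 ⟨hed, he⟩)
    have := hmin (D'.erase d) (by
      rw [mem_filter, mem_powerset]
      exact ⟨(erase_subset _ _).trans hD'.1, hnc⟩)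
    rw [card_erase_of_mem d.2] at this
    have := card_pos.2 ⟨_, d.2⟩
    omega
  choose S hS1 hS2 hS3 using hcov
  let F : D' → PolyLE n k := fun d =>
    ⟨fun x => ∏ r ∈ S d, (1 + r ⬝ᵥ x), polyLE_mono (hS1 d) (prod_mem (S d))⟩
  have hF : ∀ d e : D', (F d : (Fin n → ZMod 2) → ZMod 2) e = if d = e then 1 else 0 := by
    intro d e
    split_ifs with hde
    · subst hde
      simp only [F]
      exact prod_eq_one fun r hr => by rw [hS3 d r hr, add_zero]
    · simp only [F]
      obtain ⟨r, hr, hre⟩ := hS2 d e e.2 (fun h => hde (Subtype.ext h).symm)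
      refine prod_eq_zero hr ?_
      have : ∀ a : ZMod 2, a ≠ 0 → 1 + a = 0 := by decide
      exact this _ hre
  have hli : LinearIndependent (ZMod 2) F := by
    rw [Fintype.linearIndependent_iff]
    intro g hg e
    have h1 := congrArg (fun G : PolyLE n k => (G : (Fin n → ZMod 2) → ZMod 2) e) hg
    simp only [Submodule.coe_sum, Submodule.coe_smul, Finset.sum_apply, Pi.smul_apply, hF,
      smul_eq_mul, mul_ite, mul_one, mul_zero, sum_ite_eq', mem_univ, if_true,
      Submodule.coe_zero, Pi.zero_apply] at h1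
    exact h1
  have := hli.fintype_card_le_finrank
  rw [Fintype.card_coe] at this
  exact this.trans (finrank_polyLE n k)

/-- Greedy covering. -/
theorem greedy (D : Finset (Fin n → ZMod 2)) {lam : ℝ} (h0 : 0 ≤ lam)
    (h : ∀ E ⊆ D, E.Nonempty → ∃ r : Fin n → ZMod 2,
      ((E.filter fun d => r ⬝ᵥ d = 0).card : ℝ) ≤ lam * E.card) (j : ℕ) :
    ∃ S : Finset (Fin n → ZMod 2), S.card ≤ j ∧
      ((D.filter fun d => ∀ r ∈ S, r ⬝ᵥ d = 0).card : ℝ) ≤ lam ^ j * D.card := by
  classical
  induction j with
  | zero => exact ⟨∅, by simp, by simp⟩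
  | succ j ih =>
    obtain ⟨S, hS, hS'⟩ := ih
    by_cases hne : (D.filter fun d => ∀ r ∈ S, r ⬝ᵥ d = 0).Nonempty
    · obtain ⟨r, hr⟩ := h _ (filter_subset _ _) hne
      refine ⟨insert r S, (card_insert_le _ _).trans (by omega), ?_⟩
      have : (D.filter fun d => ∀ s ∈ insert r S, s ⬝ᵥ d = 0) =
          ((D.filter fun d => ∀ r ∈ S, r ⬝ᵥ d = 0).filter fun d => r ⬝ᵥ d = 0) := by
        ext d
        simp only [mem_filter, mem_insert, forall_eq_or_imp]
        tauto
      rw [this]
      refine hr.trans ?_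
      rw [pow_succ']
      calc lam * _ ≤ lam * (lam ^ j * D.card) := mul_le_mul_of_nonneg_left hS' h0
        _ = _ := by ring
    · rw [not_nonempty_iff_eq_empty] at hne
      refine ⟨S, hS.trans (by omega), ?_⟩
      rw [hne]
      simp only [card_empty, Nat.cast_zero]
      positivity

theorem cov_of_greedy (D : Finset (Fin n → ZMod 2)) {lam : ℝ} (h0 : 0 ≤ lam)
    (h : ∀ E ⊆ D, E.Nonempty → ∃ r : Fin n → ZMod 2,
      ((E.filter fun d => r ⬝ᵥ d = 0).card : ℝ) ≤ lam * E.card) (k : ℕ)
    (hk : lam ^ k * ∑ j ∈ range (k + 1), (n.choose j : ℝ) < 1) : Cov D k := by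
  classical
  by_contra hcon
  obtain ⟨D', hD', hnc, hcard⟩ := compact D k hcon
  obtain ⟨S, hS, hS'⟩ := greedy D' h0 (fun E hE => h E (hE.trans hD')) k
  have hcard' : (D'.card : ℝ) ≤ ∑ j ∈ range (k + 1), (n.choose j : ℝ) := by exact_mod_cast hcard
  have h1 : ((D'.filter fun d => ∀ r ∈ S, r ⬝ᵥ d = 0).card : ℝ) < 1 :=
    hS'.trans_lt ((mul_le_mul_of_nonneg_left hcard' (by positivity)).trans_lt hk)
  have h2 : (D'.filter fun d => ∀ r ∈ S, r ⬝ᵥ d = 0).card = 0 := by
    have : (D'.filter fun d => ∀ r ∈ S, r ⬝ᵥ d = 0).card < 1 := by exact_mod_cast h1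
    omega
  rw [card_eq_zero, filter_eq_empty_iff] at h2
  apply hnc
  refine ⟨S, hS, fun d hd => ?_⟩
  have := h2 hd
  push Not at this
  exact this

/-- The numerical condition. -/
theorem choose_sum_lt {k : ℕ} {lam : ℝ} (hk : 1 ≤ k) (hkn : k ≤ n) (h0 : 0 ≤ lam)
    (h : 3 * lam * n < k) :
    lam ^ k * ∑ j ∈ range (k + 1), (n.choose j : ℝ) < 1 := by
  have hn : (0 : ℝ) < n := by exact_mod_cast (by omega : 0 < n)
  have hk' : (0 : ℝ) < k := by exact_mod_cast (by omega : 0 < k)
  set t : ℝ := k / n with ht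
  have ht0 : 0 < t := by positivity
  have ht1 : t ≤ 1 := by
    rw [ht, div_le_one hn]
    exact_mod_cast hkn
  have h1 : t ^ k * ∑ j ∈ range (k + 1), (n.choose j : ℝ) ≤ Real.exp k := by
    calc t ^ k * ∑ j ∈ range (k + 1), (n.choose j : ℝ)
        ≤ ∑ j ∈ range (k + 1), t ^ j * (n.choose j : ℝ) := by
          rw [mul_sum]
          refine sum_le_sum fun j hj => ?_
          apply mul_le_mul_of_nonneg_right _ (by positivity)
          exact pow_le_pow_of_le_one ht0.le ht1 (by have := mem_range.1 hj; omega)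
      _ ≤ ∑ j ∈ range (n + 1), t ^ j * (n.choose j : ℝ) := by
          apply sum_le_sum_of_subset_of_nonneg
          · exact range_subset_range.2 (by omega)
          · intros; positivity
      _ = (t + 1) ^ n := by
          rw [add_pow]
          refine sum_congr rfl fun j _ => ?_
          rw [one_pow, mul_one]
      _ ≤ (Real.exp t) ^ n := by
          apply pow_le_pow_left₀ (by positivity)
          exact Real.add_one_le_exp t
      _ = Real.exp k := by
          rw [← Real.exp_nat_mul]
          congr 1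
          rw [ht]
          field_simp
  have h2 : Real.exp k = (Real.exp 1) ^ k := by
    rw [← Real.exp_nat_mul, mul_one]
  have h3 : lam < t / 3 := by
    rw [ht, div_div, lt_div_iff₀ (by positivity)]
    linarith
  have h4 : 0 ≤ ∑ j ∈ range (k + 1), (n.choose j : ℝ) := by positivity
  calc lam ^ k * ∑ j ∈ range (k + 1), (n.choose j : ℝ)
      ≤ (t / 3) ^ k * ∑ j ∈ range (k + 1), (n.choose j : ℝ) := by
        apply mul_le_mul_of_nonneg_right _ h4
        exact pow_le_pow_left₀ h0 h3.le k
    _ = (1 / 3) ^ k * (t ^ k * ∑ j ∈ range (k + 1), (n.choose j : ℝ)) := by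
        rw [div_pow, one_div, inv_pow]
        ring
    _ ≤ (1 / 3) ^ k * (Real.exp 1) ^ k := by
        rw [← h2]
        exact mul_le_mul_of_nonneg_left h1 (by positivity)
    _ = (Real.exp 1 / 3) ^ k := by
        rw [← mul_pow]
        congr 1
        ring
    _ < 1 := by
        apply pow_lt_one₀ (by positivity) _ (by omega)
        have := Real.exp_one_lt_d9
        rw [div_lt_one (by norm_num)]
        linarith

/-- A covered set is avoided by a subspace of small codimension. -/
theorem exists_subspace {D : Finset (Fin n → ZMod 2)} {k : ℕ} (h : Cov D k) :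
    ∃ V : Submodule (ZMod 2) (Fin n → ZMod 2), (∀ v ∈ V, v ∉ D) ∧
      n ≤ Module.finrank (ZMod 2) V + k := by
  classical
  obtain ⟨S, hS, hS'⟩ := h
  let L : (Fin n → ZMod 2) →ₗ[ZMod 2] (S → ZMod 2) :=
    { toFun := fun v r => (r : Fin n → ZMod 2) ⬝ᵥ v
      map_add' := fun v w => by funext r; simp [dotProduct_add]
      map_smul' := fun c v => by funext r; simp [dotProduct_smul] }
  refine ⟨LinearMap.ker L, fun v hv hvD => ?_, ?_⟩
  · obtain ⟨r, hr, hr0⟩ := hS' v hvD
    apply hr0
    rw [LinearMap.mem_ker] at hv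
    exact congrFun hv ⟨r, hr⟩
  · have h1 := LinearMap.finrank_range_add_finrank_ker L
    rw [Module.finrank_fin_fun] at h1
    have h2 : Module.finrank (ZMod 2) (LinearMap.range L) ≤ S.card := by
      refine (Submodule.finrank_le _).trans ?_
      rw [Module.finrank_fintype_fun_eq_card, Fintype.card_coe]
    omega

end Pool.Agent.Helper17.SumsetHalf
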